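import Pool.Agent.N686.PF.Loops
import Pool.Agent.Y775.CC.Main
import Pool.Agent.TH690.UF.Final
set_option autoImplicit false

/-!
Potential full rank of the regulator on the curves `z + 1/z = F(x)`.
-/

namespace Pool.Agent.N686.PF

open Polynomial MeasureTheory Set

open Pool.Agent.TH826.MK (Torus symb circ norm_circ contDiff_circ circ_add_one KQ Unramified)

open Pool.Agent.TH826.HD (PRing POpen pent toP pcst pDel)

open Pool.Agent.Y775.CC

/-- The kernel of the averaged matrix. -/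
theorem ker_const {g : ℕ} {φ : Fin (g + 1) → ℂ → ℂ} {N : ℕ} {a : ℝ}
    (hneg : ∀ c : Fin (g + 1) → ℝ, (∃ i j, c i ≠ c j) →
      ∑ i, ∑ j, c i * c j * Rm φ N a i j < 0) (c : Fin (g + 1) → ℝ)
    (hc : ∀ p : Fin (g + 1) × Fin N, ∑ i, c i * Jm φ i p.1 (a + (p.2 : ℕ) / N) = 0) :
    ∀ i j, c i = c j := by
  by_contra hcon
  push Not at hcon
  have h1 := hneg c hcon
  have h2 : ∑ i, ∑ j, c i * c j * Rm φ N a i j = 0 := by
    have h3 : ∀ i j, c i * c j * Rm φ N a i j =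
        (∑ k ∈ Finset.range N, c j * (c i * Jm φ i j (a + k / N))) / N := by
      intro i j
      unfold Rm
      rw [← mul_div_assoc, Finset.mul_sum]
      congr 1
      exact Finset.sum_congr rfl fun k _ => by ring
    simp only [h3]
    rw [Finset.sum_comm]
    refine Finset.sum_eq_zero fun j _ => ?_
    rw [← Finset.sum_div, Finset.sum_comm]
    rw [Finset.sum_eq_zero, zero_div]
    intro k hk
    rw [← Finset.mul_sum]
    have h4 := hc (j, ⟨k, Finset.mem_range.1 hk⟩)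
    simp only at h4
    rw [h4, mul_zero]
  rw [h2] at h1
  exact lt_irrefl _ h1

theorem eval_cheb (R : Type*) [CommRing R] (x y : R) (h : x * y = 1) (N : ℕ) :
    (Chebyshev.C R N).eval (x + y) = x ^ N + y ^ N := by
  rw [← dickson_one_one_eq_chebyshev_C, dickson_one_one_eval_add_inv x y h]

theorem int_of_root {L : Type*} [Field L] {p : L[X]} (hp : p.Monic)
    (hc : ∀ i, IsIntegral ℤ (p.coeff i)) {x : L} (hx : p.eval x = 0) : IsIntegral ℤ x := by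
  have hlift : p ∈ Polynomial.lifts (algebraMap (integralClosure ℤ L) L) := by
    rw [Polynomial.lifts_iff_coeff_lifts]
    intro n
    exact ⟨⟨p.coeff n, hc n⟩, rfl⟩
  obtain ⟨q, hq, -, hqm⟩ := Polynomial.lifts_and_natDegree_eq_and_monic hlift hp
  have h : IsIntegral (integralClosure ℤ L) x := ⟨q, hqm, by rw [← eval_map, hq, hx]⟩
  exact isIntegral_trans (R := ℤ) (A := integralClosure ℤ L) x h

theorem exists_angle {ζ : ℂ} (hζ : ‖ζ‖ = 1) {N : ℕ} (hN : 0 < N) : ∃ a : ℝ, circ 1 a ^ N = ζ := by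
  obtain ⟨η, hη⟩ := IsAlgClosed.exists_pow_nat_eq ζ hN
  have h1 : ‖η‖ = 1 := by
    have h2 := congrArg norm hη
    rw [norm_pow, hζ] at h2
    exact (pow_eq_one_iff_of_nonneg (norm_nonneg _) hN.ne').1 h2
  obtain ⟨a, ha⟩ := exists_circ h1
  exact ⟨a, by rw [ha, hη]⟩

theorem circ_pow_shift {a : ℝ} {N : ℕ} (hN : 0 < N) (k : ℕ) :
    circ 1 (a + k / N) ^ N = circ 1 a ^ N := by
  have hNr : (N : ℝ) ≠ 0 := by exact_mod_cast hN.ne'
  have hNc : (N : ℂ) ≠ 0 := by exact_mod_cast hN.ne'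
  unfold circ
  simp only [mul_pow, ← Complex.exp_nat_mul]
  congr 1
  rw [Complex.exp_eq_exp_iff_exists_int]
  refine ⟨k, ?_⟩
  push_cast
  field_simp

set_option maxHeartbeats 400000

theorem eval_map_comp {L : Type*} [Field L] (s : L →+* ℂ) (F : L[X]) (κ : L) (N : ℕ) (x : ℂ) :
    (((Chebyshev.C L N).comp F - C κ).map s).eval x =
      (Chebyshev.C ℂ N).eval ((F.map s).eval x) - s κ := by
  rw [Polynomial.map_sub, Polynomial.map_comp, Polynomial.map_C, eval_sub, eval_comp, eval_C,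
    Chebyshev.map_C]

theorem two_pow_ne {ζ : ℂ} (hζ1 : ‖ζ‖ = 1) {N : ℕ} (hN : 0 < N) :
    (2 : ℂ) ^ N + (2⁻¹ : ℂ) ^ N ≠ ζ + ζ⁻¹ := by
  intro h6
  have h7 : (2 : ℂ) ^ N + (2⁻¹ : ℂ) ^ N = (((2 : ℝ) ^ N + (2⁻¹ : ℝ) ^ N : ℝ) : ℂ) := by
    push_cast
    ring
  have h8 := congrArg norm h6
  rw [h7, Complex.norm_real, Real.norm_eq_abs] at h8
  have h9 : ‖ζ + ζ⁻¹‖ ≤ 2 := by
    refine (norm_add_le _ _).trans ?_
    rw [norm_inv, hζ1]
    norm_num
  rw [← h8] at h9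
  have h10 := (abs_le.1 h9).2
  have h11 : (0 : ℝ) < (2⁻¹ : ℝ) ^ N := by positivity
  have h12 : (2 : ℝ) ≤ 2 ^ N := by
    calc (2 : ℝ) = 2 ^ 1 := by norm_num
      _ ≤ 2 ^ N := pow_le_pow_right₀ (by norm_num) hN
  linarith

theorem exists_value {G : ℂ[X]} (hG : 0 < G.natDegree) (v : ℂ) : ∃ x, G.eval x = v := by
  obtain ⟨x, hx⟩ := IsAlgClosed.exists_root (G - C v) (by
    rw [degree_sub_C (natDegree_pos_iff_degree_pos.1 hG)]
    exact (natDegree_pos_iff_degree_pos.1 hG).ne')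
  refine ⟨x, ?_⟩
  rw [IsRoot.def, eval_sub, eval_C, sub_eq_zero] at hx
  exact hx

theorem comp_ne_zero {L : Type*} [Field L] (s : L →+* ℂ) {F : L[X]} (hF : 0 < F.natDegree)
    {κ : L} {ζ : ℂ} (hζ1 : ‖ζ‖ = 1) (hκ : s κ = ζ + ζ⁻¹) {N : ℕ} (hN : 0 < N) :
    (Chebyshev.C L N).comp F - C κ ≠ 0 := by
  intro h0
  obtain ⟨x, hx⟩ := exists_value (G := F.map s) (by rw [natDegree_map]; exact hF) (2 + 2⁻¹)
  have h5 := eval_map_comp s F κ N x
  rw [h0, Polynomial.map_zero, eval_zero, hx, eval_cheb ℂ 2 2⁻¹ (by norm_num), hκ] at h5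
  exact two_pow_ne hζ1 hN (by linear_combination -h5)

/-- The special points exist in `L`. -/
theorem exists_point {L : Type*} [Field L] {s : L →+* ℂ} {n : ℕ} {F : L[X]} {V : Set ℂ}
    {φ : Fin n → ℂ → ℂ} (H : Branches (F.map s) V φ) (hdeg : 0 < F.natDegree) {N : ℕ} (hN : 0 < N)
    {κ : L} {ζ : ℂ} (hζ1 : ‖ζ‖ = 1) (hκ : s κ = ζ + ζ⁻¹)
    (hsplit : ((Chebyshev.C L N).comp F - C κ).Splits) (j : Fin n) {θ : ℝ}
    (hθ : circ 1 θ ^ N = ζ) : ∃ b : L, s b = φ j (uu 1 θ) := by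
  have h2 : (((Chebyshev.C L N).comp F - C κ).map s).IsRoot (φ j (uu 1 θ)) := by
    rw [IsRoot.def, eval_map_comp, H.eval_branch _ (H.uu_mem _)]
    have h3 : uu 1 θ = circ 1 θ + (circ 1 θ)⁻¹ := rfl
    rw [h3, eval_cheb ℂ _ _ (mul_inv_cancel₀ (circ_ne_zero one_pos _)), inv_pow, hθ, hκ, sub_self]
  obtain ⟨b, hb⟩ := hsplit.mem_range_of_isRoot (comp_ne_zero s hdeg hζ1 hκ hN) h2
  exact ⟨b, hb⟩

theorem isIntegral_special {L : Type*} [Field L] (s : L →+* ℂ) {F : L[X]} (hm : F.Monic)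
    (hdeg : 0 < F.natDegree) (hF : ∀ i, IsIntegral ℤ (F.coeff i)) {b : L} {ξ : ℂ} {k : ℕ}
    (hk : k ≠ 0) (h1 : ξ ^ k = 1) (h2 : s (F.eval b) = ξ + ξ⁻¹) : IsIntegral ℤ b := by
  have hξ : IsIntegral ℤ ξ := IsIntegral.of_pow (Nat.pos_of_ne_zero hk) (by
    rw [h1]; exact isIntegral_one)
  have hξ' : IsIntegral ℤ ξ⁻¹ := IsIntegral.of_pow (Nat.pos_of_ne_zero hk) (by
    rw [inv_pow, h1, inv_one]; exact isIntegral_one)
  have h4 : IsIntegral ℤ (s (F.eval b)) := by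
    rw [h2]
    exact hξ.add hξ'
  have h3 : IsIntegral ℤ (F.eval b) :=
    (isIntegral_algHom_iff (s.toIntAlgHom) s.injective).1 h4
  refine int_of_root (p := F - C (F.eval b)) ?_ ?_ (by simp)
  · refine hm.sub_of_left ?_
    exact lt_of_le_of_lt degree_C_le (natDegree_pos_iff_degree_pos.1 hdeg)
  · intro i
    rw [coeff_sub, coeff_C]
    split_ifs
    · exact (hF i).sub h3
    · rw [sub_zero]
      exact hF i

/-- The choice of the points. -/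
theorem exists_choice {g : ℕ} {G : ℂ[X]} {V : Set ℂ} {φ : Fin (g + 1) → ℂ → ℂ}
    (H : Branches G V φ) {N : ℕ} (hN : 0 < N) {a : ℝ}
    (hneg : ∀ c : Fin (g + 1) → ℝ, (∃ i j, c i ≠ c j) →
      ∑ i, ∑ j, c i * c j * Rm φ N a i j < 0) :
    ∃ (β : Fin (g + 1) → Fin (g + 1)) (k : Fin (g + 1) → ℕ),
      (Matrix.of fun l m : Fin g => Jm φ l.succ (β m.succ) (a + k m.succ / N) -
        Jm φ l.succ (β 0) (a + k 0 / N)).det ≠ 0 := by
  have hne : Nonempty (Fin N) := ⟨⟨0, hN⟩⟩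
  set r : Fin (g + 1) × Fin N → Fin (g + 1) → ℝ := fun p i =>
    Jm φ i p.1 (a + (p.2 : ℕ) / N) with hr
  have h1 : ∀ k i, ∑ j, r (j, k) i = 0 := by
    intro k i
    simp only [hr]
    exact sum_Jm' H i (a + (k : ℕ) / N)
  have h2 : ∀ c : Fin (g + 1) → ℝ, (∀ a, ∑ i, c i * r a i = 0) → ∀ i j, c i = c j := by
    intro c hc
    refine ker_const (N := N) (a := a) hneg c fun p => ?_
    have h3 := hc p
    simp only [hr] at h3
    exact h3
  obtain ⟨β, hβ⟩ := exists_det_diff r h1 h2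
  refine ⟨fun m => (β m).1, fun m => ((β m).2 : ℕ), ?_⟩
  simp only [hr] at hβ
  exact hβ

/-- The main theorem at one place. -/
theorem main {L : Type*} [Field L] {s : L →+* ℂ} {g : ℕ} {F : L[X]} (hm : F.Monic)
    (hF : ∀ i, IsIntegral ℤ (F.coeff i)) (hdeg : 0 < F.natDegree) {V : Set ℂ}
    {φ : Fin (g + 1) → ℂ → ℂ} (H : Branches (F.map s) V φ) {N : ℕ} (hN : 0 < N)
    (hneg : ∀ (a : ℝ) (c : Fin (g + 1) → ℝ), (∃ i j, c i ≠ c j) →
      ∑ i, ∑ j, c i * c j * Rm φ N a i j < 0) {κ : L}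
    (hκ : ∃ (ζ : ℂ) (k : ℕ), k ≠ 0 ∧ ζ ^ k = 1 ∧ s κ = ζ + ζ⁻¹)
    (hsplit : ((Chebyshev.C L N).comp F - C κ).Splits) :
    ∃ b : Fin (g + 1) → L, (∀ m, (Chebyshev.C L N).eval (F.eval (b m)) = κ) ∧
      (∀ m, IsIntegral ℤ (b m)) ∧
      (∀ m, ∃ (ζ : ℂ) (k : ℕ), k ≠ 0 ∧ ζ ^ k = 1 ∧ s (F.eval (b m)) = ζ + ζ⁻¹) ∧
      ∃ Γ : Fin g → Torus (POpen F b) 1,
        (∀ l θ (y : L), (Γ l).e θ (pcst F b y) = s y) ∧
        (Matrix.of fun l k : Fin g => (Γ l).reg (symb (pent F b k.succ 0))).det ≠ 0 := by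
  obtain ⟨ζ, k₁, hk₁, hζk, hκζ⟩ := hκ
  have hζ1 : ‖ζ‖ = 1 := by
    have h2 := congrArg norm hζk
    rw [norm_pow, norm_one] at h2
    exact (pow_eq_one_iff_of_nonneg (norm_nonneg _) hk₁).1 h2
  obtain ⟨a, ha⟩ := exists_angle hζ1 hN
  obtain ⟨β, k, hβ⟩ := exists_choice H hN (hneg a)
  have hθ : ∀ m, circ 1 (a + k m / N) ^ N = ζ := fun m => by rw [circ_pow_shift hN, ha]
  choose b hb using fun m => exists_point H hdeg hN hζ1 hκζ hsplit (β m) (hθ m)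
  have hev : ∀ m, s (F.eval (b m)) = circ 1 (a + k m / N) + (circ 1 (a + k m / N))⁻¹ := by
    intro m
    rw [← eval₂_hom, ← eval_map, hb, H.eval_branch _ (H.uu_mem _)]
    rfl
  have hspec : ∀ m, ∃ (ζ : ℂ) (k : ℕ), k ≠ 0 ∧ ζ ^ k = 1 ∧ s (F.eval (b m)) = ζ + ζ⁻¹ :=
    fun m => ⟨circ 1 (a + k m / N), N * k₁, mul_ne_zero hN.ne' hk₁, by
      rw [pow_mul, hθ, hζk], hev m⟩
  refine ⟨b, fun m => ?_, fun m => ?_, hspec, ?_⟩
  · apply s.injective
    have h1 : s ((Chebyshev.C L N).eval (F.eval (b m))) =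
        (Chebyshev.C ℂ N).eval (s (F.eval (b m))) := by
      rw [← Chebyshev.map_C s, eval_map, eval₂_hom]
    rw [h1, hev, eval_cheb ℂ _ _ (mul_inv_cancel₀ (circ_ne_zero one_pos _)), inv_pow, hθ, hκζ]
  · obtain ⟨ξ, k', hk', h1, h2⟩ := hspec m
    exact isIntegral_special s hm hdeg hF hk' h1 h2
  · exact exists_loops_reg H b β (fun m => a + k m / N) hb hβ

end Pool.Agent.N686.PF
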