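import Pool.Agent.Y775.CC.Neg
set_option autoImplicit false

/-!
Riemann sums of the averages `Jm` of `log |φ_i(u) - φ_j(v)|`, and the negativity of the quadratic
form of the matrix of these Riemann sums.
-/

namespace Pool.Agent.N686.PF

open MeasureTheory Set Filter Topology Polynomial

open Pool.Agent.Y775.CC

theorem unif {f : ℝ → ℝ} (hf : Continuous f) (hp : ∀ t, f (t + 1) = f t) {ε : ℝ} (hε : 0 < ε) :
    ∃ δ : ℝ, 0 < δ ∧ ∀ x y : ℝ, |x - y| ≤ δ → |f x - f y| ≤ ε := by
  have hpf : Function.Periodic f 1 := hp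
  have h1 := (isCompact_Icc (a := (-1 : ℝ)) (b := 2)).uniformContinuousOn_of_continuous
    hf.continuousOn
  rw [Metric.uniformContinuousOn_iff_le] at h1
  obtain ⟨δ, hδ, h2⟩ := h1 ε hε
  refine ⟨min δ 1, lt_min hδ one_pos, fun x y hxy => ?_⟩
  have hx1 := Int.floor_le x
  have hx2 := Int.lt_floor_add_one x
  have hxy1 : |x - y| ≤ 1 := hxy.trans (min_le_right _ _)
  have hxy2 : |x - y| ≤ δ := hxy.trans (min_le_left _ _)
  rw [abs_le] at hxy1
  have h3 := h2 (x - ⌊x⌋) ⟨by linarith, by linarith⟩ (y - ⌊x⌋)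
    ⟨by linarith [hxy1.2], by linarith [hxy1.1]⟩ (by
      rw [Real.dist_eq, sub_sub_sub_cancel_right]
      exact hxy2)
  have e1 : f (x - ⌊x⌋) = f x := by
    have := hpf.sub_int_mul_eq (x := x) ⌊x⌋
    simpa using this
  have e2 : f (y - ⌊x⌋) = f y := by
    have := hpf.sub_int_mul_eq (x := y) ⌊x⌋
    simpa using this
  rw [e1, e2, Real.dist_eq] at h3
  exact h3

/-- Riemann sums of a continuous function of period one converge uniformly in the shift. -/
theorem riemann {f : ℝ → ℝ} (hf : Continuous f) (hp : ∀ t, f (t + 1) = f t) {ε : ℝ} (hε : 0 < ε) :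
    ∃ N₀ : ℕ, 1 ≤ N₀ ∧ ∀ N : ℕ, N₀ ≤ N → ∀ a : ℝ,
      |(∑ k ∈ Finset.range N, f (a + k / N)) / N - ∫ t in (0 : ℝ)..1, f t| ≤ ε := by
  have hpf : Function.Periodic f 1 := hp
  obtain ⟨δ, hδ, h1⟩ := unif hf hp hε
  obtain ⟨m, hm⟩ := exists_nat_gt (1 / δ)
  refine ⟨m + 1, by omega, fun N hN a => ?_⟩
  have hN0 : 0 < N := by omega
  have hNr : (0 : ℝ) < N := by exact_mod_cast hN0
  have hNδ : 1 / (N : ℝ) ≤ δ := by
    rw [div_le_iff₀ hNr]
    have h2 : (m : ℝ) + 1 ≤ N := by exact_mod_cast hN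
    rw [div_lt_iff₀ hδ] at hm
    nlinarith
  have h2 : ∫ t in (0 : ℝ)..1, f t = ∫ t in a..(a + 1), f t := by
    have := hpf.intervalIntegral_add_eq 0 a
    simpa using this
  set x : ℕ → ℝ := fun k => a + k / N with hx
  have hstep : ∀ k, x (k + 1) - x k = 1 / N := by
    intro k
    simp only [hx]
    push_cast
    ring
  have h3 : ∫ t in a..(a + 1), f t = ∑ k ∈ Finset.range N, ∫ t in x k..x (k + 1), f t := by
    rw [intervalIntegral.sum_integral_adjacent_intervals fun k _ => hf.intervalIntegrable _ _]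
    congr 1
    · simp [hx]
    · simp only [hx]
      field_simp
  rw [h2, h3, Finset.sum_div, ← Finset.sum_sub_distrib]
  have h4 : ∀ k ∈ Finset.range N, |f (a + k / N) / N - ∫ t in x k..x (k + 1), f t| ≤ ε / N := by
    intro k _
    have e : f (a + k / N) / N = ∫ _t in x k..x (k + 1), f (x k) := by
      rw [intervalIntegral.integral_const, hstep, smul_eq_mul]
      ring
    rw [e, ← intervalIntegral.integral_sub (by simp)
      (hf.intervalIntegrable _ _), ← Real.norm_eq_abs]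
    have h5 := intervalIntegral.norm_integral_le_of_norm_le_const (a := x k) (b := x (k + 1))
      (C := ε) (f := fun t => f (x k) - f t) fun t ht => by
        rw [Real.norm_eq_abs]
        refine h1 _ _ ?_
        rw [uIoc_of_le (by have := hstep k; have : 0 < 1 / (N : ℝ) := by positivity
                           linarith [hstep k])] at ht
        have h6 := hstep k
        rw [abs_le]
        constructor <;> linarith [ht.1, ht.2]
    rw [hstep, abs_of_pos (by positivity)] at h5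
    calc _ ≤ ε * (1 / N) := h5
      _ = ε / N := by ring
  calc |∑ k ∈ Finset.range N, (f (a + k / N) / N - ∫ t in x k..x (k + 1), f t)|
      ≤ ∑ k ∈ Finset.range N, |f (a + k / N) / N - ∫ t in x k..x (k + 1), f t| :=
        Finset.abs_sum_le_sum_abs _ _
    _ ≤ ∑ _k ∈ Finset.range N, ε / N := Finset.sum_le_sum h4
    _ = ε := by
        rw [Finset.sum_const, Finset.card_range, nsmul_eq_mul]
        field_simp

variable {G : ℂ[X]} {n : ℕ} {V : Set ℂ} {φ : Fin n → ℂ → ℂ}

theorem Jm_add_one (i j : Fin n) (θ : ℝ) : Jm φ i j (θ + 1) = Jm φ i j θ := by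
  unfold Jm
  simp only [uu_add_one]

theorem norm_psi_symm (i j : Fin n) (u v : ℂ) : ‖psi φ i j v u‖ = ‖psi φ j i u v‖ := by
  by_cases h : i = j
  · subst h
    rw [psi_self, psi_self]
    by_cases huv : u = v
    · rw [huv]
    · rw [dslope_of_ne _ huv, dslope_of_ne _ (Ne.symm huv), slope_comm]
  · rw [psi_ne h, psi_ne (Ne.symm h), norm_sub_rev]

/-- The sum over the second index. -/
theorem sum_Jm' (H : Branches G V φ) (i : Fin n) (θ : ℝ) : ∑ j, Jm φ i j θ = 0 := by
  unfold Jm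
  rw [← intervalIntegral.integral_finsetSum]
  · have h1 : ∀ t : ℝ, ∑ j, Real.log ‖psi φ i j (uu 1 θ) (uu 1 t)‖ = 0 := by
      intro t
      rw [← Real.log_prod fun j _ => norm_ne_zero_iff.2 (psi_ne_zero H i j (H.uu_mem θ)
        (H.uu_mem t))]
      simp only [norm_psi_symm (φ := φ) i _ (uu 1 t) (uu 1 θ)]
      rw [prod_psi H i (H.uu_mem t) (H.uu_mem θ), Real.log_one]
    simp only [h1]
    simp
  · intro j _
    exact (continuous_log_psi H i j (H.uu_mem θ)).intervalIntegrable _ _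

/-- the Riemann sums -/
noncomputable def Rm (φ : Fin n → ℂ → ℂ) (N : ℕ) (a : ℝ) (i j : Fin n) : ℝ :=
  (∑ k ∈ Finset.range N, Jm φ i j (a + k / N)) / N

theorem exists_Rm (H : Branches G V φ) {ε : ℝ} (hε : 0 < ε) : ∃ N₀ : ℕ, 1 ≤ N₀ ∧
    ∀ N : ℕ, N₀ ≤ N → ∀ (a : ℝ) (i j : Fin n), |Rm φ N a i j - Mm φ i j| ≤ ε := by
  have h := fun i j => riemann (continuous_Jm H i j) (Jm_add_one (φ := φ) i j) hε
  choose N₀ h1 h2 using h
  refine ⟨1 + ∑ i, ∑ j, N₀ i j, by omega, fun N hN a i j => h2 i j N ?_ a⟩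
  have h3 : N₀ i j ≤ ∑ i, ∑ j, N₀ i j :=
    (Finset.single_le_sum (f := fun j => N₀ i j) (fun _ _ => Nat.zero_le _)
      (Finset.mem_univ j)).trans (Finset.single_le_sum (f := fun i => ∑ j, N₀ i j)
      (fun _ _ => Nat.zero_le _) (Finset.mem_univ i))
  omega

theorem sum_Rm (H : Branches G V φ) (N : ℕ) (a : ℝ) (j : Fin n) : ∑ i, Rm φ N a i j = 0 := by
  unfold Rm
  rw [← Finset.sum_div, Finset.sum_comm]
  simp only [sum_Jm H]
  simp

theorem sum_Rm' (H : Branches G V φ) (N : ℕ) (a : ℝ) (i : Fin n) : ∑ j, Rm φ N a i j = 0 := by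
  unfold Rm
  rw [← Finset.sum_div, Finset.sum_comm]
  simp only [sum_Jm' H]
  simp

/-- A quadratic form whose matrix has row and column sums zero does not change when a constant is
subtracted. -/
theorem form_sub {M : Fin n → Fin n → ℝ} (h1 : ∀ j, ∑ i, M i j = 0) (h2 : ∀ i, ∑ j, M i j = 0)
    (c : Fin n → ℝ) (m : ℝ) :
    ∑ i, ∑ j, (c i - m) * (c j - m) * M i j = ∑ i, ∑ j, c i * c j * M i j := by
  have e : ∀ i j, (c i - m) * (c j - m) * M i j = c i * c j * M i j - m * (c i * M i j) -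
      m * (c j * M i j) + m ^ 2 * M i j := fun i j => by ring
  have a1 : ∑ i, ∑ j, m * (c i * M i j) = 0 := by
    refine Finset.sum_eq_zero fun i _ => ?_
    rw [← Finset.mul_sum, ← Finset.mul_sum, h2, mul_zero, mul_zero]
  have a2 : ∑ i, ∑ j, m * (c j * M i j) = 0 := by
    rw [Finset.sum_comm]
    refine Finset.sum_eq_zero fun j _ => ?_
    rw [← Finset.mul_sum, ← Finset.mul_sum, h1, mul_zero, mul_zero]
  have a3 : ∑ i, ∑ j, m ^ 2 * M i j = 0 := by
    refine Finset.sum_eq_zero fun i _ => ?_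
    rw [← Finset.mul_sum, h2, mul_zero]
  simp only [e, Finset.sum_add_distrib, Finset.sum_sub_distrib]
  rw [a1, a2, a3]
  ring

/-- A negative definite form (modulo constants) stays so under small changes of the matrix. -/
theorem neg_of_close {M : Fin n → Fin n → ℝ}
    (hneg : ∀ c : Fin n → ℝ, (∃ i j, c i ≠ c j) → ∑ i, ∑ j, c i * c j * M i j < 0) :
    ∃ ε : ℝ, 0 < ε ∧ ∀ M' : Fin n → Fin n → ℝ, (∀ i j, |M' i j - M i j| ≤ ε) →
      (∀ j, ∑ i, M' i j = 0) → (∀ i, ∑ j, M' i j = 0) →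
      ∀ c : Fin n → ℝ, (∃ i j, c i ≠ c j) → ∑ i, ∑ j, c i * c j * M' i j < 0 := by
  classical
  -- the compact set of normalised vectors
  set S : Set (Fin n → ℝ) := {c | ∑ i, c i = 0} ∩ Metric.sphere 0 1 with hS
  have hSc : IsCompact S := by
    refine (isCompact_sphere (0 : Fin n → ℝ) 1).inter_left ?_
    exact isClosed_eq (by fun_prop) continuous_const
  have hform : Continuous fun c : Fin n → ℝ => ∑ i, ∑ j, c i * c j * M i j := by fun_prop
  have hneg' : ∀ c ∈ S, ∑ i, ∑ j, c i * c j * M i j < 0 := by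
    intro c hc
    refine hneg c ?_
    by_contra hcon
    push Not at hcon
    have hc0 : c = 0 := by
      funext i
      have h3 : ∑ j, c j = n * c i := by
        rw [Finset.sum_congr rfl fun j _ => hcon j i]
        simp
      have h4 : ∑ j, c j = 0 := hc.1
      have hn : (n : ℝ) ≠ 0 := by
        have := i.pos
        exact_mod_cast this.ne'
      rw [h4] at h3
      simpa using (mul_eq_zero.1 h3.symm).resolve_left hn
    have h5 : ‖c‖ = 1 := by simpa using hc.2
    rw [hc0, norm_zero] at h5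
    exact zero_ne_one h5
  obtain ⟨δ, hδ, hδ'⟩ : ∃ δ : ℝ, 0 < δ ∧ ∀ c ∈ S, ∑ i, ∑ j, c i * c j * M i j ≤ -δ := by
    by_cases hne : S.Nonempty
    · obtain ⟨c₀, hc₀, hmax⟩ := hSc.exists_isMaxOn hne hform.continuousOn
      refine ⟨-(∑ i, ∑ j, c₀ i * c₀ j * M i j), by linarith [hneg' c₀ hc₀], fun c hc => ?_⟩
      have := hmax hc
      simp only [mem_ofPred_eq] at this
      linarith
    · exact ⟨1, one_pos, fun c hc => absurd ⟨c, hc⟩ hne⟩
  refine ⟨δ / (2 * ((n : ℝ) ^ 2 + 1)), by positivity, fun M' hM' h1' h2' c hc => ?_⟩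
  -- subtract the mean value
  obtain ⟨i₀, j₀, hij⟩ := hc
  have hn : (n : ℝ) ≠ 0 := by
    have := i₀.pos
    exact_mod_cast this.ne'
  set m : ℝ := (∑ i, c i) / n with hm
  set d : Fin n → ℝ := fun i => c i - m with hd
  have hdsum : ∑ i, d i = 0 := by
    simp only [hd, Finset.sum_sub_distrib, Finset.sum_const, Finset.card_univ, Fintype.card_fin,
      nsmul_eq_mul]
    rw [hm]
    field_simp
    ring
  have hd0 : d ≠ 0 := by
    intro h
    have e1 := congrFun h i₀
    have e2 := congrFun h j₀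
    simp only [hd, Pi.zero_apply] at e1 e2
    exact hij (by linarith)
  have hdn : 0 < ‖d‖ := norm_pos_iff.2 hd0
  rw [← form_sub h1' h2' c m]
  set e : Fin n → ℝ := fun i => ‖d‖⁻¹ * d i with he
  have heS : e ∈ S := by
    constructor
    · show ∑ i, e i = 0
      simp only [he]
      rw [← Finset.mul_sum, hdsum, mul_zero]
    · have : e = ‖d‖⁻¹ • d := rfl
      rw [mem_sphere_zero_iff_norm, this, norm_smul, norm_inv, norm_norm,
        inv_mul_cancel₀ hdn.ne']
  have h6 := hδ' e heS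
  have he1 : ∀ i, |e i| ≤ 1 := by
    intro i
    have h7 := norm_le_pi_norm e i
    have h8 : ‖e‖ = 1 := by simpa using heS.2
    rw [h8, Real.norm_eq_abs] at h7
    exact h7
  have h7 : |∑ i, ∑ j, e i * e j * (M' i j - M i j)| ≤ (n : ℝ) ^ 2 * (δ / (2 * ((n : ℝ) ^ 2 + 1))) := by
    calc |∑ i, ∑ j, e i * e j * (M' i j - M i j)|
        ≤ ∑ i, |∑ j, e i * e j * (M' i j - M i j)| := Finset.abs_sum_le_sum_abs _ _
      _ ≤ ∑ i, ∑ j, |e i * e j * (M' i j - M i j)| :=
          Finset.sum_le_sum fun i _ => Finset.abs_sum_le_sum_abs _ _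
      _ ≤ ∑ _i : Fin n, ∑ _j : Fin n, (δ / (2 * ((n : ℝ) ^ 2 + 1))) := by
          refine Finset.sum_le_sum fun i _ => Finset.sum_le_sum fun j _ => ?_
          rw [abs_mul, abs_mul]
          have h8 : |e i| * |e j| ≤ 1 := mul_le_one₀ (he1 i) (abs_nonneg _) (he1 j)
          calc |e i| * |e j| * |M' i j - M i j| ≤ 1 * |M' i j - M i j| :=
                mul_le_mul_of_nonneg_right h8 (abs_nonneg _)
            _ ≤ _ := by rw [one_mul]; exact hM' i j
      _ = (n : ℝ) ^ 2 * (δ / (2 * ((n : ℝ) ^ 2 + 1))) := by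
          simp only [Finset.sum_const, Finset.card_univ, Fintype.card_fin, nsmul_eq_mul]
          ring
  have h8 : (n : ℝ) ^ 2 * (δ / (2 * ((n : ℝ) ^ 2 + 1))) < δ := by
    rw [← mul_div_assoc, div_lt_iff₀ (by positivity)]
    nlinarith [sq_nonneg (n : ℝ)]
  have h9 : ∑ i, ∑ j, e i * e j * M' i j < 0 := by
    have h10 : ∑ i, ∑ j, e i * e j * M' i j = ∑ i, ∑ j, e i * e j * M i j +
        ∑ i, ∑ j, e i * e j * (M' i j - M i j) := by
      rw [← Finset.sum_add_distrib]
      refine Finset.sum_congr rfl fun i _ => ?_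
      rw [← Finset.sum_add_distrib]
      exact Finset.sum_congr rfl fun j _ => by ring
    rw [h10]
    have := (abs_le.1 h7).2
    linarith
  have h10 : ∑ i, ∑ j, d i * d j * M' i j = ‖d‖ ^ 2 * ∑ i, ∑ j, e i * e j * M' i j := by
    rw [Finset.mul_sum]
    refine Finset.sum_congr rfl fun i _ => ?_
    rw [Finset.mul_sum]
    refine Finset.sum_congr rfl fun j _ => ?_
    simp only [he]
    field_simp
  have h11 : ∑ i, ∑ j, (c i - m) * (c j - m) * M' i j = ∑ i, ∑ j, d i * d j * M' i j := rfl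
  rw [h11, h10]
  exact mul_neg_of_pos_of_neg (by positivity) h9

/-- The quadratic forms of the Riemann sums are negative modulo constants. -/
theorem exists_Rm_neg (H : Branches G V φ) : ∃ N₀ : ℕ, 1 ≤ N₀ ∧ ∀ N : ℕ, N₀ ≤ N → ∀ (a : ℝ)
    (c : Fin n → ℝ), (∃ i j, c i ≠ c j) → ∑ i, ∑ j, c i * c j * Rm φ N a i j < 0 := by
  obtain ⟨ε, hε, h⟩ := neg_of_close (fun c hc => Mm_neg H hc)
  obtain ⟨N₀, h1, h2⟩ := exists_Rm H hε
  exact ⟨N₀, h1, fun N hN a c hc => h _ (fun i j => h2 N hN a i j) (sum_Rm H N a)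
    (sum_Rm' H N a) c hc⟩

end Pool.Agent.N686.PF
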