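import Mathlib
set_option autoImplicit false

/-!
Linear algebra: from a spanning family of vectors, given by the vanishing of the functionals that
kill it, to a nonvanishing determinant.
-/

namespace Pool.Agent.N686.PF

open Finset

/-- If no nonzero functional kills all the vectors `v a`, then the determinant of suitable `g` of
them does not vanish. -/
theorem exists_det {g : ℕ} {ι : Type*} (v : ι → Fin g → ℝ)
    (h : ∀ c : Fin g → ℝ, (∀ a, ∑ l, c l * v a l = 0) → c = 0) :
    ∃ β : Fin g → ι, (Matrix.of fun l k : Fin g => v (β k) l).det ≠ 0 := by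
  classical
  have hspan : Submodule.span ℝ (Set.range v) = ⊤ := by
    by_contra hne
    obtain ⟨f, hf0, hf⟩ := Submodule.exists_le_ker_of_lt_top _ (lt_top_iff_ne_top.2 hne)
    set c : Fin g → ℝ := fun l => f (Pi.single l 1) with hc
    have hfc : ∀ x : Fin g → ℝ, f x = ∑ l, c l * x l := by
      intro x
      conv_lhs => rw [← Finset.univ_sum_single x]
      rw [map_sum]
      refine Finset.sum_congr rfl fun l _ => ?_
      have e : Pi.single l (x l) = x l • (Pi.single l (1 : ℝ) : Fin g → ℝ) := by
        ext m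
        by_cases hm : m = l
        · subst hm; simp
        · simp [hm]
      rw [e, map_smul, smul_eq_mul, mul_comm]
    have hc0 : c = 0 := h c fun a => by
      rw [← hfc]
      exact hf (Submodule.subset_span ⟨a, rfl⟩)
    refine hf0 (LinearMap.ext fun x => ?_)
    rw [hfc, hc0]
    simp
  obtain ⟨b, hb, hbs, hbl⟩ := exists_linearIndependent ℝ (Set.range v)
  rw [hspan] at hbs
  have hB : ⊤ ≤ Submodule.span ℝ (Set.range ((↑) : b → Fin g → ℝ)) := by
    rw [Subtype.range_coe, hbs]
  set B := Module.Basis.mk hbl hB with hBdef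
  have : Fintype b := FiniteDimensional.fintypeBasisIndex B
  have hcard : Fintype.card b = g := by
    have := Module.finrank_eq_card_basis B
    rw [Module.finrank_fin_fun] at this
    exact this.symm
  set e : Fin g ≃ b := (finCongr hcard.symm).trans (Fintype.equivFin b).symm with he
  have hli : LinearIndependent ℝ fun k : Fin g => ((e k : b) : Fin g → ℝ) :=
    hbl.comp e e.injective
  choose β hβ using fun k : Fin g => hb (e k).2
  refine ⟨β, ?_⟩
  have h1 : (Matrix.of fun l k : Fin g => v (β k) l) =
      (Matrix.of fun k : Fin g => ((e k : b) : Fin g → ℝ)).transpose := by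
    ext l k
    rw [Matrix.transpose_apply, Matrix.of_apply, Matrix.of_apply, hβ]
  rw [h1, Matrix.det_transpose]
  have h2 : IsUnit (Matrix.of fun k : Fin g => ((e k : b) : Fin g → ℝ)) :=
    Matrix.linearIndependent_rows_iff_isUnit.1 hli
  exact ((Matrix.isUnit_iff_isUnit_det _).1 h2).ne_zero

/-- Let `r a i`, `i ≤ g`, be a family of vectors indexed by the pairs `a = (j, k)`, such that
`∑ j, r (j, k) i = 0` for all `k`, and no nonconstant vector `c` satisfies
`∑ i, c i * r a i = 0` for all `a`. Then there are `g + 1` indices with a nonvanishing determinant of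
the differences. -/
theorem exists_det_diff {g : ℕ} {κ : Type*} [Nonempty κ] (r : Fin (g + 1) × κ → Fin (g + 1) → ℝ)
    (hsum : ∀ k i, ∑ j, r (j, k) i = 0)
    (h : ∀ c : Fin (g + 1) → ℝ, (∀ a, ∑ i, c i * r a i = 0) → ∀ i j, c i = c j) :
    ∃ β : Fin (g + 1) → Fin (g + 1) × κ,
      (Matrix.of fun l k : Fin g => r (β k.succ) l.succ - r (β 0) l.succ).det ≠ 0 := by
  classical
  obtain ⟨k₀⟩ := ‹Nonempty κ›
  set a₀ : Fin (g + 1) × κ := (0, k₀) with ha₀
  obtain ⟨β, hβ⟩ := exists_det (fun a l => r a l.succ - r a₀ l.succ) (fun c hc => by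
    set c' : Fin (g + 1) → ℝ := Fin.cons 0 c with hc'
    have h1 : ∀ a, ∑ i, c' i * r a i = ∑ l, c l * r a l.succ := by
      intro a
      rw [Fin.sum_univ_succ]
      simp [hc']
    have h2 : ∀ a, ∑ i, c' i * r a i = ∑ l, c l * r a₀ l.succ := by
      intro a
      rw [h1]
      have h3 := hc a
      simp only [mul_sub, Finset.sum_sub_distrib] at h3
      linarith
    have h4 : ∑ l, c l * r a₀ l.succ = 0 := by
      have h5 : ∑ j, ∑ i, c' i * r (j, k₀) i = (g + 1) * ∑ l, c l * r a₀ l.succ := by
        rw [Finset.sum_congr rfl fun j _ => h2 (j, k₀)]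
        simp
      rw [Finset.sum_comm] at h5
      have h6 : ∑ i, ∑ j, c' i * r (j, k₀) i = 0 := by
        refine Finset.sum_eq_zero fun i _ => ?_
        rw [← Finset.mul_sum, hsum, mul_zero]
      rw [h6] at h5
      have h7 : (g : ℝ) + 1 ≠ 0 := by positivity
      exact (mul_eq_zero.1 h5.symm).resolve_left h7
    have h8 := h c' fun a => by rw [h2, h4]
    funext l
    have h9 := h8 l.succ 0
    simpa [hc'] using h9)
  refine ⟨Fin.cons a₀ β, ?_⟩
  simpa using hβ

end Pool.Agent.N686.PF
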