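import Pool.Agent.N686.PF.Riem
import Pool.Agent.N686.PF.Lin
import Pool.Agent.Y775.CC.Pair
import Pool.Agent.TH826.UH.Tor
set_option autoImplicit false

/-!
The regulators of the symbols `{z, (x - b) / (x - b')}` on the loops `z = R e^{2πiθ}`,
`x = φ_i(z + 1/z)` of the curve `z + 1/z = F(x)` at special points `b`.
-/

namespace Pool.Agent.N686.PF

open Polynomial MeasureTheory Set

open Pool.Agent.TH826.MK (Torus symb circ norm_circ contDiff_circ circ_add_one KQ Unramified)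

open Pool.Agent.TH826.HD (PRing POpen pent toP pcst pDel)

open Pool.Agent.TH826.UH (pr NZ nz_circ ld_circ PtS mkS mkS_e mkS_reg)

open Pool.Agent.Y775.CC

variable {K : Type*} [Field K] {s : K →+* ℂ} {F : K[X]} {n : ℕ} {V : Set ℂ} {φ : Fin n → ℂ → ℂ}

theorem pr_loop {G : ℂ[X]} (H : Branches G V φ) {R : ℝ} (hR : 1 < R)
    (hV : ∀ z : ℂ, 1 ≤ ‖z‖ → ‖z‖ ≤ R → z + z⁻¹ ∈ V) (i j : Fin n) (b : ℝ) :
    pr (circ R) (fun t => φ i (uu R t) - φ j (uu 1 b)) = -(2 * Real.pi) * Jm φ i j b := by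
  have hR0 : 0 < R := by linarith
  have h1 := inner_eq H hR hV i j b
  have hpi : Real.pi ≠ 0 := Real.pi_ne_zero
  have h2 : pr (circ R) (fun t => φ i (uu R t) - φ j (uu 1 b)) =
      -(1 / (2 * Real.pi)) * ∫ a in (0 : ℝ)..1,
      (4 * Real.pi ^ 2 * Real.log ‖hfun φ R i j ![a, b]‖ - 2 * Real.pi * Real.log R *
      (deriv (fun t => hfun φ R i j ![t, b]) a / hfun φ R i j ![a, b]).im) := by
    rw [← intervalIntegral.integral_const_mul]
    unfold pr
    refine intervalIntegral.integral_congr fun a _ => ?_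
    simp only
    rw [ld_circ hR0, norm_circ hR0.le]
    have e1 : hfun φ R i j ![a, b] = φ i (uu R a) - φ j (uu 1 b) := rfl
    have e2 : (fun t => hfun φ R i j ![t, b]) = fun t => φ i (uu R t) - φ j (uu 1 b) := rfl
    rw [e1, e2]
    field_simp
    ring
  rw [h2, h1]
  field_simp
  ring

/-- The loops and the regulators. -/
theorem exists_loops_reg {g : ℕ} {φ : Fin (g + 1) → ℂ → ℂ} (H : Branches (F.map s) V φ)
    (b : Fin (g + 1) → K) (β : Fin (g + 1) → Fin (g + 1)) (θ : Fin (g + 1) → ℝ)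
    (hb : ∀ m, s (b m) = φ (β m) (uu 1 (θ m)))
    (hdet : (Matrix.of fun l k : Fin g => Jm φ l.succ (β k.succ) (θ k.succ) -
      Jm φ l.succ (β 0) (θ 0)).det ≠ 0) :
    ∃ Γ : Fin g → Torus (POpen F b) 1,
      (∀ l θ (y : K), (Γ l).e θ (pcst F b y) = s y) ∧
      (Matrix.of fun l k : Fin g => (Γ l).reg (symb (pent F b k.succ 0))).det ≠ 0 := by
  obtain ⟨R, hR, hV⟩ := exists_radius' H.isOpen H.mem
  have hR0 : 0 < R := by linarith
  have hz := nz_circ hR0
  have hVR : ∀ t, uu R t ∈ V := uu_mem hR.le hV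
  have hev : ∀ i, ∀ u ∈ V, F.eval₂ s (φ i u) = u := fun i u hu => by
    rw [← eval_map]
    exact H.eval_branch i hu
  have heq : ∀ i t, circ R t ^ 2 - F.eval₂ s (φ i (uu R t)) * circ R t + 1 = 0 := by
    intro i t
    rw [hev i _ (hVR t)]
    have h1 : circ R t * (circ R t)⁻¹ = 1 := mul_inv_cancel₀ (circ_ne_zero hR0 t)
    have h3 : uu R t = circ R t + (circ R t)⁻¹ := rfl
    rw [h3]
    linear_combination -h1
  have hP : ∀ i t, PtS s F b (φ i (uu R t)) (circ R t) := by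
    intro i t
    refine ⟨heq i t, fun m h => ?_⟩
    rw [hb m] at h
    exact uu_ne hR _ _ (H.eq_of_eq (hVR t) (H.uu_mem _) h).2
  have hX : ∀ i, ContDiff ℝ 2 fun t => φ i (uu R t) := fun i =>
    contDiff_branch_uu H hR hV i hR.le le_rfl
  have pX : ∀ i t, φ i (uu R (t + 1)) = φ i (uu R t) := fun i t => by rw [uu_add_one]
  refine ⟨fun l => mkS (hX l.succ) hz.smooth (pX l.succ) (circ_add_one R) (fun t => hP l.succ t),
    fun l θ y => ?_, ?_⟩
  · rw [mkS_e, PtS.evA_pcst]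
  · have e : (Matrix.of fun l k : Fin g => (mkS (hX l.succ) hz.smooth (pX l.succ)
        (circ_add_one R) (fun t => hP l.succ t)).reg (symb (pent F b k.succ 0))) =
        (-(2 * Real.pi)) • Matrix.of fun l k : Fin g => Jm φ l.succ (β k.succ) (θ k.succ) -
          Jm φ l.succ (β 0) (θ 0) := by
      ext l k
      rw [Matrix.of_apply, Matrix.smul_apply, Matrix.of_apply, mkS_reg (hX l.succ) hz]
      simp only [hb]
      rw [pr_loop H hR hV, pr_loop H hR hV, smul_eq_mul]
      ring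
    rw [e, Matrix.det_smul]
    exact mul_ne_zero (pow_ne_zero _ (neg_ne_zero.2 (by positivity))) hdet

end Pool.Agent.N686.PF
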